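import Pool.Agent.Lib.MP_0da313_nt.CM.F
import Pool.Agent.Lib.MP_0da313_nt.CM.C

set_option autoImplicit false

/-!
Project RC (reversed Chen-Maynard, coordinator helper47), for MP_bca3e5_nt: for every fixed admissible
set `A`, many `n` with at most two prime factors such that at least `max(1, c0 log |A'|)` of the numbers
`a n + 1`, `a ∈ A'`, are prime, all of them almost prime.

Everything is built on the library of project CM (`Lib/MP_0da313_nt/CM`), where `none` is the form which is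
prime and the forms `some i` are the candidates for `P_2`. Here the roles are exchanged: `none` is the form
which is to be `P_2`, the forms `some i` are the candidates for primes, and the weights are those of CM
(indexed by `ι`). For a fixed `i` the pair (`some i` prime, `none` a `P_2`) is treated by the statements of CM
for the family `sw F i`, in which `none` and `some i` are exchanged. The new ingredient is an upper bound
for the sum of the weights over the points where the form `none` has no prime factor `< kz n`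
(`R_U0`).

Abbreviations in the docstrings: `z = z0 D n'`, `κ = kapD z`, `V0 = F.V n n'`, `V1 = V (z + 1) (kz n)`,
`Φ = F.hw * n * V0 / κ`, `PK = PK (2D) n'` (the primes `≤ z`, `mem_PK`), `L l x = F.L n l x`.
-/

namespace Pool.Agent.RC

open Finset Filter Polynomial
open ArithmeticFunction (cardFactors)
open Pool.Agent.MP89da58 (bil pw nn supp part kapD)
open Pool.Agent.MT (PJf LocD dvI ZI sp)
open Pool.Agent.BVall (om PK lev)
open Pool.Agent.Lib.MP_0da313_nt (Admissible lineRestrict val singV)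
open Pool.Agent.CH.S (th Pr gd RepC V)
open Pool.Agent.CM (Fam F12 F3 kz ky k3 lD al cv z0)
open Pool.Agent.CM.W (WPk yM)
open Pool.Agent.CM.F (DF qf Par Pre Wts)

/-! ### Exchange of two forms -/

/-- The exchange of the forms `none` and `some i`. -/
def sg {ι : Type} [DecidableEq ι] (i : ι) : Equiv.Perm (Option ι) := Equiv.swap none (some i)

/-- The family in which the forms `none` and `some i` are exchanged. -/
noncomputable def sw {ι : Type} [Fintype ι] [DecidableEq ι] {D : ℕ} (F : Fam ι D) (i : ι) :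
    Fam ι D where
  N0 := F.N0
  G := F.G
  Gc n l := F.Gc n (sg i l)
  u l := F.u (sg i l)
  b l := F.b (sg i l)
  c l := F.c (sg i l)
  xi := F.xi
  hw := F.hw
  hG n hn l := F.hG n hn (sg i l)
  hdeg := F.hdeg
  hloc := F.hloc
  hu l := F.hu (sg i l)
  huv n hn l := F.huv n hn (sg i l)
  hdet n hn l l' h := F.hdet n hn (sg i l) (sg i l') (fun h' => h ((sg i).injective h'))
  hhw := F.hhw
  hxi0 := F.hxi0
  hxi1 := F.hxi1
  hth l := F.hth (sg i l)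

/-- Facts on the exchange. (`V`, `Rg`, `hw`, `N0`, `xi` of `sw F i` are those of `F` by definition.) -/
def R_sw : Prop := ∀ (ι : Type) [Fintype ι] [DecidableEq ι] (D : ℕ) (F : Fam ι D) (i : ι),
  (∀ (n : ℕ) (x : ℤ), (sw F i).L n none x = F.L n (some i) x ∧
    (sw F i).L n (some i) x = F.L n none x) ∧
  (∀ n : ℕ, (sw F i).X n none = F.X n (some i) ∧ (sw F i).X n (some i) = F.X n none) ∧
  (∀ (n : ℕ) (C : ℝ), (∀ l, 3 * F.X n l < C) → ∀ l, 3 * (sw F i).X n l < C) ∧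
  (∀ (B0 M n n' : ℕ) (P : Finset ℕ), Par F B0 M n n' P → Par (sw F i) B0 M n n' P) ∧
  (∀ (n B Y : ℕ) (P : Finset ℕ) (g : (PJf P → Option ι) → ℝ), Wts B Y none (some i) g →
    Wts B Y none none g ∧ ∀ x : ℤ, ZI (DF (sw F i) n P) g x = ZI (DF F n P) g x)

/-- [RC sw] done by helper47. -/
def S_sw : Prop := R_sw

/-! ### Pointwise inequalities -/

/-- No prime `< k` divides `m`. -/
def Rou (k m : ℕ) : Prop := ∀ p : ℕ, p.Prime → p ∣ m → k ≤ p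

/-- The points near the centre. -/
def Near {ι : Type} [Fintype ι] [DecidableEq ι] {D : ℕ} (F : Fam ι D) (n : ℕ) (x : ℤ) : Prop :=
  |(x : ℝ) - F.xi * n| ≤ 2 * (F.hw * n)

/-- The points in the windows are near the centre. -/
def R_nr : Prop := ∀ (ι : Type) [Fintype ι] [DecidableEq ι] (D : ℕ) (F : Fam ι D),
  ∀ᶠ n : ℕ in atTop, ∀ (l : Option ι) (x : ℤ), 0 < F.L n l x →
    F.wi n l (F.L n l x).toNat ≠ 0 → Near F n x

/-- [RC nr] Proof: compare `CM/P/win.lean` (the beginning of the proof of the second claim) and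
`TC/P/loc.lean`. `L = L n l x > 0`, `X = F.X n l = t n + c`, `L = X + u (x - xi n)` (`t = u xi + b`). `wi ≠ 0` means
`tri (la log (L/X)) ≠ 0`, so `|log (L/X)| < 1/la` with `la = F.la l ≥ (99/100) t/(|u| hw)` and
`t ≥ 1000 |u| hw > 0` (`F.hth`), so `1/la ≤ 1/990`. Hence `|u| |x - xi n| = |L - X| ≤ X (exp(1/la) - 1)
≤ 1.01 X/la ≤ 1.01 * (100/99) * (t n + |c|) |u| hw/t ≤ 1.9 |u| hw n` for large `n`; divide by `|u| ≥ 1`. -/
def S_nr : Prop := R_nr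

open Classical in
/-- The pointwise lower bound: the right side is restricted to the points at which the form `some i` has
no prime factor `< kz n`. -/
def R_pwr : Prop := ∀ (ι : Type) [Fintype ι] [DecidableEq ι] [Nonempty ι] (D : ℕ) (F : Fam ι D)
  (C B0 M : ℕ), 1 ≤ D → 1 ≤ B0 → 1 ≤ M → (∀ᶠ n : ℕ in atTop, ∀ l, 3 * F.X n l < C * n) →
  ∀ᶠ n : ℕ in atTop, ∀ (n' : ℕ) (P : Finset ℕ), Par F B0 M n n' P → ∀ Fp Fm, Pre D n' Fp Fm →
  ∀ (x : ℤ) (i : ι), F.a0 n (F.L n none x).toNat ≠ 0 →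
  F12 Fp Fm (z0 D n' + 1) (kz n) (ky C n) (lD n) (F.ri n (z0 D n') none (some i) x) -
    1 / 2 * (if F.Rg n (z0 D n') x then cv (al C n) (F.L n (some i) x).toNat else 0) ≤
  if F.Rg n (z0 D n') x ∧ Rou (kz n) (F.L n (some i) x).toNat then
    ((if cardFactors (F.L n (some i) x).toNat ≤ 2 then (1 : ℝ) else 0) +
      (if ∃ q : ℕ, q.Prime ∧ kz n ≤ q ∧ q ^ 2 ∣ (F.L n (some i) x).toNat then 1 else 0)) else 0

/-- [RC pwr] (uses CM S pt, chn, L win) Proof: this is `p_pw1` (`CM/P/pw1.lean`) without the weights; copy it.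
`z ≤ lev ≤ n^(1/1000) < kz n`. `N = (L n none x).toNat` is a prime `> X/3` (`R_win`), larger than `ky C n`.
`m = L n (some i) x > 0`, `m ≤ 3X < C n`. Let `ρ = F.ri n z none (some i) x`. Then `W ρ PK = [Rg]`, `W ρ (Pr (z+1) (kz n))` =
[no prime in `(z, kz n)` divides `m`], `∑_{q ∈ Pr (kz n) (ky C n)} ρ q` = the number of these `q` dividing `m`. `R_pt`:
`F12 ≤ W W (1 - 1/2 ∑)`. If `Rg` then no prime `≤ z` divides `m` (`m ∣ G(x)`), so `Rou (kz n) m` holds iff no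
prime in `(z, kz n)` divides `m`; in this case `R_chn` gives the inequality. If `Rg` fails or `Rou` fails then
`F12 ≤ 0`, `cv ≥ 0`: the left side is `≤ 0` and the right side is `0`. -/
def S_pwr : Prop := CM.S.R_pt → CM.F.R_chn → CM.L.R_win → R_pwr

/-! ### The linear sieve with the sifting limit `n^(1/11)` -/

/-- The upper bound for the main term. -/
def R_mn : Prop := ∀ B0 : ℕ, 1 ≤ B0 → ∀ᶠ n : ℕ in atTop, ∀ z : ℕ, n ≤ z ^ B0 →
  (z : ℝ) ≤ (n : ℝ) ^ (1 / 1000 : ℝ) → ∀ (Fp : (ℕ → ℝ) → ℝ) (ρ : ℕ → ℝ) (V0 : ℝ), 0 ≤ V0 →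
  V0 ≤ Fp ρ → Fp ρ ≤ (1 + 1 / 1000) * V0 → (∀ p : ℕ, z < p → ρ p = gd p) →
  F3 Fp (z + 1) (kz n) (lD n) ρ ≤ 101 / 100 * (V0 * V (z + 1) (kz n))

/-- [RC mn] (uses CM S ss, CH.S tel, mer, ls) Proof: this is a part of the proof of `p_main` (`CM/P/main.lean`):
there `hBp` is `th (z + 1) gd (kz n) true (lD n) ≤ V1 * (1 + 17/10000)`; `F3 Fp a k D ρ = Fp ρ * th a ρ k true D`,
`th` for `ρ` agrees with `th` for `gd` (`main_th` there, private: copy it), `V1 ≥ 0`, `Fp ρ ≥ 0`, and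
`1.001 * 1.0017 ≤ 1.01`. -/
def S_mn : Prop := CM.S.R_ss → CH.S.S_tel → CH.S.S_mer → CH.S.S_ls → R_mn

/-- Mertens' product and the range of the presieve. -/
def R_vu : Prop := ∀ᶠ n : ℕ in atTop, ∀ z : ℕ, 2 ≤ z → (z : ℝ) ≤ (n : ℝ) ^ (1 / 1000 : ℝ) →
  V (z + 1) (kz n) * (kapD z * Real.log n) ≤ 12

/-- [RC vu] Proof: let `m = kz n - 1 ≥ z`. `V (z+1) (kz n) = ∏_{z < p ≤ m} (1 - 1/(p-1)) ≤ ∏_{z < p ≤ m} (1 - 1/p)` (all
factors are in `[0, 1]`, as `p ≥ 3`), `kapD m = kapD z * ∏_{z < p ≤ m} (1 - 1/p)` (`kapD_split`, `MT/OneDimU.lean`),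
`kapD m * log m ≤ 1` (`kapD_mul_log_le`, `MT/Mertens.lean` or `MT/OneDimU.lean`, see the use in `CM/P/cnt.lean`), and
`log n ≤ 12 log m` for large `n`, because `kz n ≥ n^(1/11)`. -/
def S_vu : Prop := R_vu

/-! ### The expansion of a sieved quadratic sum over all integers -/

open Classical in
/-- The common hypotheses. -/
structure GH0 {ι : Type} [Fintype ι] [DecidableEq ι] (P P1 : Finset ℕ) (D : PJf P → ι → ℤ → Prop)
    (Q : ℕ → ℤ → Prop) (K0 z : ℕ) : Prop where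
  hz : 2 ≤ z
  hP : ∀ p ∈ P, p.Prime ∧ z < p
  hP1 : ∀ p ∈ P1, p.Prime
  hD : LocD P D (fun _ => True)
  hcop : ∀ (j : PJf P) (l l' : ι) (y : ℤ), l ≠ l' → ¬ (D j l y ∧ D j l' y)
  hQ : ∀ (p : ℕ) (x y : ℤ), (p : ℤ) ∣ x - y → (Q p x ↔ Q p y)
  hex : ∀ (j : PJf P) (l : ι) (y : ℤ), D j l y → ¬ Q (j : ℕ) y
  hK : 1 ≤ K0
  hom : ∀ p : ℕ, p.Prime → om Q p ≤ K0

open Classical in
/-- The sum for one support. -/
def R_one0 : Prop := ∀ (ι : Type) [Fintype ι] [DecidableEq ι] (P P1 : Finset ℕ)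
  (D : PJf P → ι → ℤ → Prop) (Q : ℕ → ℤ → Prop) (K0 z : ℕ), GH0 P P1 D Q K0 z →
  ∀ (Y0 : ℕ) (F : (ℕ → ℝ) → ℝ), RepC P1 (fun T => ∏ p ∈ T, p ≤ Y0) F →
  ∀ (x0 : ℤ) (X : ℕ) (γ : PJf P → Option ι),
  |∑ k ∈ range X, (if dvI D (x0 + k) γ then
      F (fun p => if Q p (x0 + k) then (1 : ℝ) else 0) else 0) -
    X * pw (fun j : PJf P => 1 / ((j : ℕ) : ℝ)) (supp γ) *
      F (fun p => if p ∈ sp γ then 0 else (om Q p : ℝ) / p)| ≤
  ∑ T ∈ P1.powerset.filter (fun T => ∏ p ∈ T, p ≤ Y0 ∧ Disjoint T (sp γ)),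
    3 * (K0 : ℝ) ^ (T.card + (supp γ).card)

/-- [RC one0] Proof: adapt `p_one2` (`CM/P/one2.lean`; its lemmas on `Qd`, `sp` can be imported: `Qd_mem`,
`prod_Qd`, `prod_sp'`, `card_sp'`, `Qd_per`, `om_Qd_mem`, `om_Qd_not_mem`). Write `F ρ = ∑_{T ⊆ P1} c T ∏_{p ∈ T} ρ p`,
`|c T| ≤ 3`. If `T` meets `sp γ` both contributions vanish (`hex`). If `T` is disjoint from `sp γ` (and `c T ≠ 0`):
instead of `R_cls` use `count_estimate` (`Lib/MP_0da313_nt/Count.lean`, see its use in `MT/S1.lean`) for the set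
`T ∪ sp γ` and the condition `k ↦ Qd D Q γ p (x0 - 1 + k)` on `Ico 1 (1 + X)` (shift `k ↦ k + 1`); the number of
`k ∈ range p` with this condition is `om (Qd D Q γ) p` (translation invariance of the number of classes
modulo `p`), which is `1` for `p ∈ sp γ` and `om Q p ≤ K0` for `p ∈ T`; `K0 ≥ 1`. -/
def S_one0 : Prop := R_one0

open Classical in
/-- The general expansion. -/
def R_gen0 : Prop := ∀ (ι : Type) [Fintype ι] [DecidableEq ι] [Nonempty ι] (P P1 : Finset ℕ)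
  (D : PJf P → ι → ℤ → Prop) (Q : ℕ → ℤ → Prop) (K0 z : ℕ), GH0 P P1 D Q K0 z →
  ∀ (Y0 : ℕ) (F : (ℕ → ℝ) → ℝ), RepC P1 (fun T => ∏ p ∈ T, p ≤ Y0) F →
  ∀ (ρ : ℕ → ℝ) (k : ℝ), 0 ≤ k → (∀ p ∈ P1, 0 ≤ ρ p ∧ (om Q p : ℝ) / p ≤ ρ p) →
  ∑ p ∈ P1, (ρ p - (om Q p : ℝ) / p) ≤ k * (2 / z) → (∀ p ∈ P1, z < p → ρ p ≤ 2 / z) →
  ∀ (x0 : ℤ) (X : ℕ) (g : (PJf P → Option ι) → ℝ) (B r : ℝ) (Y : ℕ), (∀ α, |g α| ≤ B) →
  (∀ α, g α ≠ 0 → nn (fun j : PJf P => (j : ℕ)) (supp α) ≤ Y) →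
  ((Y * Y : ℕ) : ℝ) ≤ 2 ^ r → 0 ≤ r →
  |∑ i ∈ range X, F (fun p => if Q p (x0 + i) then (1 : ℝ) else 0) * ZI D g (x0 + i) ^ 2 -
    X * F ρ * bil (fun j : PJf P => 1 / ((j : ℕ) : ℝ)) g g| ≤
  B ^ 2 * (3 * ∑ q ∈ (Icc 1 (Y * Y * Y0)).filter Squarefree,
      ((6 * Fintype.card ι * K0 : ℕ) : ℝ) ^ q.primeFactors.card +
    X * (3 * (2 / z) * ∏ p ∈ P1, (1 + ρ p)) *
      ((k + r) * ∏ j : PJf P, (1 + (3 * Fintype.card ι : ℝ) * (1 / (((j : ℕ) : ℝ) - 1)))))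

/-- [RC gen0] (uses one0, CM G es1, es2) Proof: adapt `p_gen` (`CM/P/gen.lean`). `quad_expandI` (`MT/ExpandI.lean`) with
`x j = 1/j`, `M = X * F ρ`, the points `x0 + i`, `ω i = F (...)`, and the error `e1 (supp γ) + e2 (supp γ)`,
`e1 A = ∑_{T ⊆ P1, ∏ T ≤ Y0, T disjoint from A} 3 * (K0^(|T| + |A|) * 1)`,
`e2 A = X * (3 * (2/z) * ∏_{P1} (1 + ρ)) * (pw x A * (k + |A|))`. By `R_one0` the sum over `i` with `dvI` is close to
`X * pw x (supp γ) * F ρ'`, `ρ' p = 0` for `p ∈ sp γ`, else `om Q p/p`. And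
`|F ρ' - F ρ| ≤ 3 (∑_{P1} (ρ - ρ')) ∏_{P1} (1 + ρ)` for `0 ≤ ρ' ≤ ρ` on `P1`: `|F ρ' - F ρ| ≤ 3 ∑_T (∏_T ρ - ∏_T ρ')
= 3 (∏_{P1} (1 + ρ) - ∏_{P1} (1 + ρ'))` (as in `CM/P/prt.lean`) and `∏ (1+ρ) - ∏ (1+ρ') ≤ (∑ (ρ - ρ')) ∏ (1 + ρ)` by
induction. Here `∑_{P1} (ρ - ρ') ≤ k (2/z) + |supp γ| (2/z)` (for `p ∈ sp γ`, `p > z`, `ρ p ≤ 2/z`). Then
`err_sum_leI`, `R_es1` (`c = 3|ι|`, `E = 1`) and `R_es2` (`x j = 1/j`, `c = 3|ι|`; `1/j ≤ 1/(j-1)` in the product). -/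
def S_gen0 : Prop := R_one0 → CM.G.R_es1 → CM.G.R_es2 → R_gen0

open Classical in
/-- The upper bound for the sum of the weights over the points at which the form `none` has no prime
factor `< kz n`. -/
def R_U0 : Prop := ∀ (ι : Type) [Fintype ι] [DecidableEq ι] [Nonempty ι] (D : ℕ) (F : Fam ι D)
  (B0 M B A : ℕ), 1 ≤ D → 1 ≤ B0 → 1 ≤ M → ∀ᶠ n : ℕ in atTop, ∀ (n' : ℕ) (P : Finset ℕ),
  Par F B0 M n n' P → ∀ Fp Fm, Pre D n' Fp Fm →
  ∀ g : (PJf P → Option ι) → ℝ, Wts B (yM M n) none none g →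
  ∑ x ∈ (Ioo 0 n).filter (fun x : ℕ => F.Rg n (z0 D n') x ∧ Near F n x ∧
      Rou (kz n) (F.L n none x).toNat), ZI (DF F n P) g x ^ 2 ≤
    5 * (F.hw * n * F.V n n') * (V (z0 D n' + 1) (kz n) * qf g) + n / (Real.log n) ^ A

/-- [RC U0] (uses gen0, mn, CM S rc, S pt, W bp, W pr, L P) Proof: compare `CM/P/app.lean` (the second error term,
`tail_ev`, `ev_log_nat`, `yM_le`, `z0_le_lev`, `prod_le_of_subset` can be imported) and `CM/P/S0.lean`. Let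
`Q p y := if p ≤ z then p ∣ (F.G n)(y) else p ∣ L_none(y)`, `P1 = PK ∪ Pr (z+1) (kz n)`, `Ff = F3 Fp (z+1) (kz n) (lD n)`, a
`RepC` function on `P1` with support `∏ T ≤ n^(4974/10000)` by `R_rc` (with `z = y = k = kz n`, `a = z + 1`, `Q0 = lev^3
≤ n^(1/1000)`, `D = lD n = n^(273/550)`; `kz n * kz n < lD n` for large `n`, `0.001 + 273/550 ≤ 0.4974`). `x0 = ⌈(xi - 2 hw) n⌉`,
`X = ⌊4 hw n⌋₊ + 1`: every `x` with `Near` is `x0 + i` with `i ∈ range X`. For a point `x` of the left side all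
`Q p x`, `p ∈ P1`, are false (`L_none(x) > 0`, as `Rou (kz n) 0` is false, so `(L).toNat = L`), so
`Ff ≥ W W = 1` (`R_pt`); for all other points `Ff ≥ 0`, `ZI^2 ≥ 0`. So the left side is at most
`∑_{i ∈ range X} Ff (ind (x0 + i)) ZI (x0 + i)^2`, and `R_gen0` applies with `Y0 = ⌊n^(4974/10000)⌋₊`, `K0 = D`, `Y = yM M n`,
`r = 2 log n`, `k = 1/2`, `ρ p = om(p ∣ G)/p` for `p ≤ z`, `ρ p = gd p = 1/(p-1)` for `p > z`. `GH0`: `hD`, `hcop` as in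
`CM/P/app.lean` (`Dl_loc`, `Dl_cop`); `hex`: for `j ∈ P`, `j > z`, `D j i y` says `j ∣ L_(some i)(y)`, so `j ∤ L_none(y)`
(`Par.hdet`); `hom`: for `p ≤ z` the number of roots of `G n` modulo `p` is at most `D` (`card_roots_mod_le`, `F.hdeg`,
`F.hloc`; see `dns`), for `p > z` it is `1` (`p ∤ u none`: first part of `CM.L.R_P`). `∑_{p ∈ P1} (ρ p - om/p) =
∑_{z < p < kz n} (1/(p-1) - 1/p) ≤ 1/z`. Main term: `V0' = W ρ PK = F.V n n'` (definition of `Fam.V`), `Fp ρ ∈ [V0', 1.001 V0']`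
(`Pre.pt`, `Pre.mt`, with the `Dens (2D)` function `om(p ∣ G)/p`: `MT.dens_poly` as in `cnt_V` in `CM/P/cnt.lean`; `Fp ρ` only
depends on the values on `PK`), so `Ff ρ ≤ 1.01 F.V V1` by `R_mn`; `X ≤ 4.01 hw n`; and
`0 ≤ bil (1/j) g g ≤ qf g + error` (`W.R_bp`, `qf g ≥ 0`: `cm_S0_qf` in `CM/P/S0.lean`). `4.01 * 1.01 ≤ 5`. The errors are at most
`n/(log n)^A`: `∑_{q ≤ x, squarefree} b^ω(q) ≤ x ∏_{p ≤ x} (1 + b/p) ≤ C x (log x)^b` (`W.R_pr`) with `x = Y Y Y0 ≤ n^(1/2)`, the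
others as in `tail_ev` (`1/z ≤ n^(-1/B0)`, the products are `≤ C (log n)^C`; `ρ p ≤ 2D/p`). -/
def S_U0 : Prop := R_gen0 → R_mn → CM.S.R_rc → CM.S.R_pt → CM.W.R_bp → CM.W.R_pr → CM.L.R_P → R_U0

/-! ### The final count -/

open Classical in
/-- The number of good points. -/
def R_cnt : Prop := ∃ c0 : ℝ, 0 < c0 ∧ ∀ (ι : Type) [Fintype ι] [DecidableEq ι] [Nonempty ι],
  ∃ M : ℕ, 1 ≤ M ∧ ∀ (D B0 : ℕ) (h : ℝ), 1 ≤ D → 1 ≤ B0 → 0 < h → ∃ c : ℝ, 0 < c ∧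
  ∀ F : Fam ι D, F.hw = h → ∀ᶠ n : ℕ in atTop, ∀ n' : ℕ, n ≤ z0 D n' ^ B0 →
  (lev (2 * D) n' : ℝ) ^ (3 * M) ≤ (n : ℝ) ^ (1 / 1000 : ℝ) →
  (2 : ℝ) ^ (2 * D + n') ≤ Real.log n →
  c * (n * F.V n n') ≤ (((Ioo 0 n).filter (fun x : ℕ => F.Rg n (z0 D n') x ∧
    (cardFactors (F.L n none x).natAbs ≤ 2 ∧ Rou (kz n) (F.L n none x).natAbs) ∧
    c0 * Real.log (Fintype.card ι) ≤
      ((univ.filter (fun i : ι => (F.L n (some i) x).natAbs.Prime)).card : ℝ) ∧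
    1 ≤ (univ.filter (fun i : ι => (F.L n (some i) x).natAbs.Prime)).card)).card : ℝ)

/-- [RC cnt] (uses sw, nr, pwr, U0, vu, CM T12, T3, pw3, wm, sq, S pre, L P, L win, W wp) Proof: adapt `p_cnt`
(`CM/P/cnt.lean`), whose lemmas (`cnt_a0`, `cnt_V`, `cnt_z_le_lev`, ...) can be imported. The beginning (constants, `Par`,
`WPk`, `Pre`, `hΦe`, `hsmall`) is the same, with `c0 = c'/40000`. For every `i : ι` let `Fi = sw F i`,
`a_i(x) = Fi.a0 n (L_(some i) x).toNat` (`Fi.L n none = F.L n (some i)`, `R_sw`) and `Z(x) = ZI (DF F n P) lam x ^ 2`.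
If `a_i(x) ≠ 0` then `L_(some i)(x)` is a prime `≥ X/3 > n^(1/1000) ≥ yM M n` (`L.R_win` for `Fi`), so no `p ∈ P` divides it, and
`ZI (DF F n P) lam x = ZI (DF F n P) (lami i) x` (`WPk.link`) `= ZI (DF Fi n P) (lami i) x` (`R_sw`). For every `i`, by `R_pwr`
(for `Fi`, multiplied by `a_i ≥ 0` and `ZI (DF Fi n P) (lami i) x ^ 2 ≥ 0`), `R_pw3`, `R_T12`, `R_T3`, `R_sq` (for `Fi`, index `i`,
weights `lami i`, which satisfy `Wts none (some i)`):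
`∑_x a_i(x) [x ∈ E] Z(x) ≥ 0.2105 Φ V1 b_i - e - (1/2)(0.391 Φ V1 b_i + e) - e ≥ (14/1000) τ Φ A`, where `E` is the set of the
`x ∈ Ioo 0 n` with `Rg`, `Near F n x`, `Rou (kz n) (L_none x).toNat`, `cardFactors (L_none x).toNat ≤ 2` (`R_nr` for `Fi`: `a_i ≠ 0`
implies `Near`; `Near` of `Fi` is `Near` of `F`). By `R_U0` (`g = lam`, exponent `8D + 3`) `S := ∑_{x ∈ E} Z(x) ≤
5 (hw n V0) V1 qf lam + n/(log n)^(8D+3) ≤ 10 Φ A (κ V1) + .. ≤ 121 Φ A/log n` (`R_vu`: `V1 κ log n ≤ 12`, and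
`n/(log n)^(8D+3) ≤ Φ A/log n` by `hsmall0`). Put `a(x) = ∑_i a_i(x)`, `K = |ι|`, `s = K τ log n/20000`. Then
`∑_{x ∈ E, a(x) > s} a(x) Z(x) ≥ K (14/1000) τ Φ A - s * 121 Φ A/log n ≥ (7/1000) K τ Φ A`. Each term is at most
`2 K log n * H`, `H` as in `cnt` (`cnt_a0` for `Fi`: `a_i ≤ 2 log n`; `R_wm` for `Fi`, `lami i`), so the number of the `x ∈ E` with
`a(x) > s` is at least `(7/2000) τ Φ A/(H log n) ≥ c n V0`, as in `cnt`. For such `x` the number of `i` with `a_i(x) ≠ 0`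
is `≥ s/(2 log n) = K τ/40000 ≥ c0 log K` and `≥ 1` (`a(x) > 0`), and `a_i(x) ≠ 0` implies that `(L_(some i) x).natAbs` is a
prime (`cnt_a0`). Finally `L_none(x) > 0` (`L.R_win` for `Fi`), so `toNat = natAbs`. -/
def S_cnt : Prop := R_sw → R_nr → R_pwr → R_U0 → R_vu → CM.F.R_T12 → CM.F.R_T3 → CM.F.R_pw3 →
  CM.F.R_wm → CM.F.R_sq → CM.S.R_pre → CM.L.R_P → CM.L.R_win → CM.W.R_wp → R_cnt

open Classical in
/-- The theorem on the line `x + y = n`. -/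
def R_fin : Prop := ∃ c0 : ℝ, 0 < c0 ∧ ∀ m d : ℕ, 1 ≤ m → 1 ≤ d → ∃ (B : ℕ) (c : ℝ), 0 < c ∧
  ∀ f : Fin m → MvPolynomial (Fin 2) ℤ, Admissible f → (∀ k, (f k).totalDegree ≤ d) →
  ∀ (k0 : Fin m) (I : Finset (Fin m)), k0 ∉ I → I.Nonempty →
  (∀ k ∈ insert k0 I, (f k).totalDegree ≤ 1) →
  (∀ k ∈ insert k0 I, ∀ l ∈ insert k0 I, k ≠ l → f k ≠ f l ∧ f k ≠ - f l) →
  ∃ N : ℕ, ∀ n : ℕ, N ≤ n → c * (n * singV f n) ≤
    (Set.ncard {x : ℕ | 0 < x ∧ x < n ∧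
      (cardFactors (val (f k0) x ((n : ℤ) - x)).natAbs ≤ 2 ∧
        ∀ p : ℕ, p.Prime → p ∣ (val (f k0) x ((n : ℤ) - x)).natAbs → n ≤ p ^ 11) ∧
      c0 * Real.log I.card ≤
        ((I.filter (fun k => (val (f k) x ((n : ℤ) - x)).natAbs.Prime)).card : ℝ) ∧
      1 ≤ (I.filter (fun k => (val (f k) x ((n : ℤ) - x)).natAbs.Prime)).card ∧
      ∀ k, 1 < |val (f k) x ((n : ℤ) - x)| ∧
      (∀ p : ℕ, p.Prime → (p : ℤ) ∣ val (f k) x ((n : ℤ) - x) → n < p ^ B) ∧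
      cardFactors (val (f k) x ((n : ℤ) - x)).natAbs ≤ B * d} : ℝ)

/-- [RC fin] (uses cnt, CM L fam) Proof: `p_fin` (`CM/P/fin.lean`) with the roles exchanged; copy it (its lemmas
`cm_fin_V`, `cm_fin_sing` can be imported; `cm_fin_card` has to be stated for the predicate `Nat.Prime`). From
`Rou (kz n) m`: `p ∣ m` implies `kz n ≤ p`, so `n^(1/11) ≤ p`, `n ≤ p^11`. -/
def S_fin : Prop := R_cnt → CM.L.R_fam → R_fin

open Classical in
/-- The final theorem, for the numbers `a n + 1`. -/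
def R_cor : Prop := ∃ c0 : ℝ, 0 < c0 ∧ ∀ s : ℕ, 1 ≤ s → ∃ (B : ℕ) (c : ℝ), 0 < c ∧
  ∀ A : Finset ℕ, A.card = s → (∀ a ∈ A, 0 < a) →
  (¬ ∃ p : ℕ, p.Prime ∧ ∀ n : ℕ, 1 ≤ n → p ∣ n * ∏ a ∈ A, (a * n + 1)) →
  ∀ A' : Finset ℕ, A' ⊆ A → A'.Nonempty → ∃ x₀ : ℝ, ∀ x : ℝ, x₀ ≤ x →
  c * x / (Real.log x) ^ (s + 1) ≤
    (((Finset.range (⌊x⌋₊ + 1)).filter (fun n : ℕ => 1 < n ∧ cardFactors n ≤ 2 ∧
      (∀ p ∈ n.primeFactors, x < (p : ℝ) ^ 12) ∧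
      c0 * Real.log A'.card ≤ ((A'.filter (fun a => (a * n + 1).Prime)).card : ℝ) ∧
      1 ≤ (A'.filter (fun a => (a * n + 1).Prime)).card ∧
      ∀ a ∈ A, cardFactors (a * n + 1) ≤ B ∧
        ∀ p ∈ (a * n + 1).primeFactors, x < (p : ℝ) ^ B)).card : ℝ)

/-- [RC cor] (uses fin, CM C sv) Proof: `p_cor` (`CM/P/cor.lean`) with the obvious changes; copy it. (`1 < n`: from
`1 < |val (f 0) ..|`. `x < p^12`: with `N = ⌊x⌋₊ ≤ p^11`, `x < N + 1 ≤ p^11 + 1 ≤ p^12`.) -/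
def S_cor : Prop := R_fin → CM.C.R_sv → R_cor

end Pool.Agent.RC
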