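import Pool.Agent.Lib.MP_0da313_nt.CM.Main
import Pool.Agent.Lib.MP_bca3e5_nt.RC.P.sw
import Pool.Agent.Lib.MP_bca3e5_nt.RC.P.nr
import Pool.Agent.Lib.MP_bca3e5_nt.RC.P.pwr
import Pool.Agent.Lib.MP_bca3e5_nt.RC.P.mn
import Pool.Agent.Lib.MP_bca3e5_nt.RC.P.vu
import Pool.Agent.Lib.MP_bca3e5_nt.RC.P.one0
import Pool.Agent.Lib.MP_bca3e5_nt.RC.P.gen0
import Pool.Agent.Lib.MP_bca3e5_nt.RC.P.U0
import Pool.Agent.Lib.MP_bca3e5_nt.RC.P.cnt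
import Pool.Agent.Lib.MP_bca3e5_nt.RC.P.fin
import Pool.Agent.Lib.MP_bca3e5_nt.RC.P.cor

set_option autoImplicit false

/-!
Project RC: the assembly.
-/

namespace Pool.Agent.RC

theorem h_sw : R_sw := p_sw

theorem h_nr : R_nr := p_nr

theorem h_pwr : R_pwr := p_pwr CM.S.h_pt CM.F.h_chn CM.L.h_win

theorem h_mn : R_mn := p_mn CM.S.h_ss CH.S.p_tel CH.S.p_mer CM.S.h_ls

theorem h_vu : R_vu := p_vu

theorem h_one0 : R_one0 := p_one0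

theorem h_gen0 : R_gen0 := p_gen0 h_one0 CM.G.h_es1 CM.G.h_es2

theorem h_U0 : R_U0 :=
  p_U0 h_gen0 h_mn CM.S.h_rc CM.S.h_pt CM.W.h_bp CM.W.h_pr CM.L.h_P

theorem h_cnt : R_cnt :=
  p_cnt h_sw h_nr h_pwr h_U0 h_vu CM.F.h_T12 CM.F.h_T3 CM.F.h_pw3 CM.F.h_wm CM.F.h_sq CM.S.h_pre
    CM.L.h_P CM.L.h_win CM.W.h_wp

/-- The theorem on the line `x + y = n`. -/
theorem h_fin : R_fin := p_fin h_cnt CM.L.h_fam

/-- The theorem for the numbers `a n + 1`. -/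
theorem h_cor : R_cor := p_cor h_fin CM.C.h_sv

end Pool.Agent.RC
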